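import Pool.Agent.V8H39.Sem.Core

/-!
Closure properties of the class `Low`.
-/

set_option linter.unusedSectionVars false

namespace Pool.Agent.V8H39.Sem

open Finset Pool.Agent.Helper600R2

variable {N : ℕ}

open Classical in
/-- the span in the definition of `Low` -/
noncomputable def Sp (K : Type*) [Field K] (𝓓 : Finset (Finset (Finset (Fin N × Bool)))) (H : ℕ) :
    Submodule K ((Fin N → Bool) → K) := Submodule.span K
    {g : (Fin N → Bool) → K | ∃ s ⊆ 𝓓, s.card ≤ H ∧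
      g = fun x => if ∀ D ∈ s, dval D x then 1 else 0}

lemma low_iff {K : Type*} [Field K] {𝓓 : Finset (Finset (Finset (Fin N × Bool)))} {H : ℕ}
    {f : (Fin N → Bool) → Bool} : Low K 𝓓 H f ↔ toK K f ∈ Sp K 𝓓 H := Iff.rfl

lemma Sp_mono {K : Type*} [Field K] {𝓓 : Finset (Finset (Finset (Fin N × Bool)))} {H H' : ℕ}
    (h : H ≤ H') : Sp K 𝓓 H ≤ Sp K 𝓓 H' := by
  apply Submodule.span_mono
  rintro g ⟨s, hs, hc, rfl⟩
  exact ⟨s, hs, hc.trans h, rfl⟩

lemma Sp_const {K : Type*} [Field K] (𝓓 : Finset (Finset (Finset (Fin N × Bool)))) (H : ℕ)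
    (c : K) : (fun _ => c : (Fin N → Bool) → K) ∈ Sp K 𝓓 H := by
  classical
  have h1 : (fun _ => 1 : (Fin N → Bool) → K) ∈ Sp K 𝓓 H := by
    refine Submodule.subset_span ⟨∅, empty_subset _, by simp, ?_⟩
    funext x
    simp
  have h2 := (Sp K 𝓓 H).smul_mem c h1
  have h3 : (c • (fun _ => 1 : (Fin N → Bool) → K)) = fun _ => c := by
    funext x; simp
  rw [h3] at h2
  exact h2

lemma Sp_mul {K : Type*} [Field K] {𝓓 : Finset (Finset (Finset (Fin N × Bool)))} {a b : ℕ}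
    {f g : (Fin N → Bool) → K} (hf : f ∈ Sp K 𝓓 a) (hg : g ∈ Sp K 𝓓 b) :
    f * g ∈ Sp K 𝓓 (a + b) := by
  classical
  have h1 : f * g ∈ Sp K 𝓓 a * Sp K 𝓓 b := Submodule.mul_mem_mul hf hg
  have h2 : Sp K 𝓓 a * Sp K 𝓓 b ≤ Sp K 𝓓 (a + b) := by
    unfold Sp
    rw [Submodule.span_mul_span]
    apply Submodule.span_mono
    rintro _ ⟨_, ⟨s, hs, hsc, rfl⟩, _, ⟨s', hs', hsc', rfl⟩, rfl⟩
    refine ⟨s ∪ s', union_subset hs hs', (card_union_le _ _).trans (by omega), ?_⟩
    funext x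
    simp only [Pi.mul_apply]
    by_cases h1 : ∀ D ∈ s, dval D x
    · by_cases h2 : ∀ D ∈ s', dval D x
      · rw [if_pos h1, if_pos h2, if_pos, one_mul]
        intro D hD
        rcases mem_union.mp hD with h | h
        · exact h1 D h
        · exact h2 D h
      · have h3 : ¬ ∀ D ∈ s ∪ s', dval D x := fun h => h2 (fun D hD => h D (mem_union_right _ hD))
        rw [if_neg h2, if_neg h3, mul_zero]
    · have h3 : ¬ ∀ D ∈ s ∪ s', dval D x := fun h => h1 (fun D hD => h D (mem_union_left _ hD))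
      rw [if_neg h1, if_neg h3, zero_mul]
  exact h2 h1

lemma Sp_pow {K : Type*} [Field K] {𝓓 : Finset (Finset (Finset (Fin N × Bool)))} {a : ℕ}
    {f : (Fin N → Bool) → K} (hf : f ∈ Sp K 𝓓 a) (t : ℕ) : f ^ t ∈ Sp K 𝓓 (t * a) := by
  induction t with
  | zero =>
    rw [pow_zero]
    exact Sp_const (K := K) 𝓓 (0 * a) 1
  | succ t ih =>
    rw [pow_succ, Nat.succ_mul]
    exact Sp_mul ih hf

open Classical in
/-- members of the family -/
lemma low_dnf {K : Type*} [Field K] {𝓓 : Finset (Finset (Finset (Fin N × Bool)))}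
    {D : Finset (Finset (Fin N × Bool))} (hD : D ∈ 𝓓) :
    Low K 𝓓 1 (fun x => decide (dval D x)) := by
  refine Submodule.subset_span ⟨{D}, by simpa using hD, by simp, ?_⟩
  funext x
  simp

lemma low_neg {K : Type*} [Field K] {𝓓 : Finset (Finset (Finset (Fin N × Bool)))} {H : ℕ}
    {f : (Fin N → Bool) → Bool} (hf : Low K 𝓓 H f) : Low K 𝓓 H (fun x => !f x) := by
  rw [low_iff] at hf ⊢
  rw [toK_not]
  exact Submodule.sub_mem _ (Sp_const 𝓓 H 1) hf

lemma low_or {K : Type*} [Field K] {𝓓 : Finset (Finset (Finset (Fin N × Bool)))} {H H' : ℕ}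
    {f g : (Fin N → Bool) → Bool} (hf : Low K 𝓓 H f) (hg : Low K 𝓓 H' g) :
    Low K 𝓓 (H + H') (fun x => f x || g x) := by
  have h1 := Sp_mul (low_iff.mp (low_neg hf)) (low_iff.mp (low_neg hg))
  rw [← toK_and] at h1
  have h2 := low_neg (f := fun x => (!f x) && (!g x)) (low_iff.mpr h1)
  have h3 : (fun x => !((!f x) && (!g x))) = fun x => f x || g x := by
    funext x
    cases f x <;> cases g x <;> rfl
  rw [h3] at h2
  exact h2

/-- connectives that depend on a weighted sum modulo `p` of their arguments -/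
lemma low_mod {p : ℕ} [Fact p.Prime] {𝓓 : Finset (Finset (Finset (Fin N × Bool)))} {H : ℕ}
    {t : ℕ} (c : Fin t → ZMod p) (f : Fin t → (Fin N → Bool) → Bool)
    (hf : ∀ j, Low (ZMod p) 𝓓 H (f j)) (Φ : ZMod p → Bool) :
    Low (ZMod p) 𝓓 ((p - 1) * H) (fun x => Φ (∑ j, if f j x = true then c j else 0)) := by
  classical
  set Q : (Fin N → Bool) → ZMod p := fun x => ∑ j, if f j x = true then c j else 0 with hQ
  have hQm : Q ∈ Sp (ZMod p) 𝓓 H := by
    have : Q = ∑ j, c j • toK (ZMod p) (f j) := by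
      funext x
      rw [Finset.sum_apply]
      refine Finset.sum_congr rfl (fun j _ => ?_)
      simp only [toK, Pi.smul_apply, smul_eq_mul]
      split_ifs <;> simp
    rw [this]
    exact Submodule.sum_mem _ (fun j _ => Submodule.smul_mem _ _ (low_iff.mp (hf j)))
  rw [low_iff]
  have h1 : toK (ZMod p) (fun x => Φ (Q x)) = ∑ a : ZMod p, (if Φ a = true then (1 : ZMod p) else 0) •
      ((fun _ => 1) - (Q - fun _ => a) ^ (p - 1)) := by
    funext x
    rw [Finset.sum_apply]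
    rw [Finset.sum_eq_single_of_mem (Q x) (mem_univ _)]
    · simp only [toK, Pi.smul_apply, Pi.sub_apply, Pi.pow_apply, sub_self, smul_eq_mul]
      rw [zero_pow (by have := (Fact.out : p.Prime).two_le; omega)]
      simp
    · intro a _ ha
      simp only [Pi.smul_apply, Pi.sub_apply, Pi.pow_apply, smul_eq_mul]
      rw [ZMod.pow_card_sub_one_eq_one (sub_ne_zero.mpr (Ne.symm ha))]
      simp
  rw [h1]
  refine Submodule.sum_mem _ (fun a _ => Submodule.smul_mem _ _ ?_)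
  refine Submodule.sub_mem _ (Sp_const 𝓓 _ 1) ?_
  exact Sp_pow (Submodule.sub_mem _ hQm (Sp_const 𝓓 H a)) (p - 1)

/-- change of field -/
lemma low_map {K K' : Type*} [Field K] [Field K'] [Algebra K K']
    {𝓓 : Finset (Finset (Finset (Fin N × Bool)))} {H : ℕ}
    {f : (Fin N → Bool) → Bool} (hf : Low K 𝓓 H f) : Low K' 𝓓 H f := by
  classical
  let φ : ((Fin N → Bool) → K) →ₗ[K] ((Fin N → Bool) → K') :=
    { toFun := fun g x => algebraMap K K' (g x)
      map_add' := fun g h => by funext x; simp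
      map_smul' := fun c g => by funext x; simp [Algebra.smul_def] }
  have h1 : Sp K 𝓓 H ≤ ((Sp K' 𝓓 H).restrictScalars K).comap φ := by
    unfold Sp
    rw [Submodule.span_le]
    rintro g ⟨s, hs, hc, rfl⟩
    show φ _ ∈ (Submodule.restrictScalars K _)
    rw [Submodule.restrictScalars_mem]
    refine Submodule.subset_span ⟨s, hs, hc, ?_⟩
    funext x
    show algebraMap K K' (if ∀ D ∈ s, dval D x then 1 else 0) = _
    split_ifs <;> simp
  have h2 := h1 hf
  rw [low_iff]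
  have h3 : toK K' f = φ (toK K f) := by
    funext x
    show _ = algebraMap K K' (if f x = true then 1 else 0)
    simp only [toK]
    split_ifs <;> simp
  rw [h3]
  exact h2

lemma low_zero {K : Type*} [Field K] {𝓓 : Finset (Finset (Finset (Fin N × Bool)))}
    {f : (Fin N → Bool) → Bool} (hf : Low K 𝓓 0 f) : Low K ∅ 0 f := by
  refine Submodule.span_mono ?_ hf
  rintro g ⟨s, _, hc, rfl⟩
  have : s = ∅ := by
    rw [← card_eq_zero]; omega
  subst this
  exact ⟨∅, empty_subset _, by simp, rfl⟩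

lemma aa_le (κ : ℕ) : aa κ ≤ 8 ^ (κ ^ 2) := by
  have h1 : ∀ κ, aa κ + 1 ≤ 8 ^ (κ ^ 2) := by
    intro κ
    induction κ with
    | zero => simp [aa]
    | succ κ ih =>
      have e1 : aa (κ + 1) + 1 = ((κ + 1) * 4 ^ (κ + 1) + 1) * (aa κ + 1) := by
        simp only [aa]; ring
      have e2 : (κ + 1) * 4 ^ (κ + 1) + 1 ≤ 8 ^ (κ + 1) := by
        have h2 : κ + 1 + 1 ≤ 2 ^ (κ + 1) := Nat.lt_two_pow_self
        have h3 : 1 ≤ 4 ^ (κ + 1) := Nat.one_le_pow _ _ (by norm_num)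
        calc (κ + 1) * 4 ^ (κ + 1) + 1 ≤ (κ + 1 + 1) * 4 ^ (κ + 1) := by nlinarith
          _ ≤ 2 ^ (κ + 1) * 4 ^ (κ + 1) := Nat.mul_le_mul_right _ h2
          _ = 8 ^ (κ + 1) := by rw [← mul_pow]; norm_num
      rw [e1]
      calc ((κ + 1) * 4 ^ (κ + 1) + 1) * (aa κ + 1) ≤ 8 ^ (κ + 1) * 8 ^ (κ ^ 2) :=
            Nat.mul_le_mul e2 ih
        _ = 8 ^ (κ + 1 + κ ^ 2) := by rw [← pow_add]
        _ ≤ 8 ^ ((κ + 1) ^ 2) := Nat.pow_le_pow_right (by norm_num) (by nlinarith)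
  have := h1 κ
  omega

end Pool.Agent.V8H39.Sem
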