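import Pool.Agent.V8H39.Sem.Switch

/-!
Semantic refutations of lifted Tseitin systems modulo `q` whose lines, except for a few ones,
are combinations of conjunctions of few disjunctive normal forms with short terms.
-/

set_option linter.unusedSectionVars false

namespace Pool.Agent.V8H39.Sem

open Finset Pool.Agent.Helper600R2

section defs

variable {N : ℕ}

/-- The clause `C` (a finite set of literals) is true at `x`. -/
def ClauseTrue (C : Finset (Fin N × Bool)) (x : Fin N → Bool) : Prop := ∃ l ∈ C, x l.1 = l.2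

/-- A semantic refutation of the set `F` of clauses: a sequence of arbitrary Boolean functions,
one of which is constantly false, each of which is implied by a single clause of `F` or by at
most `k` earlier members. -/
def IsSemRef (F : Finset (Finset (Fin N × Bool))) (k : ℕ) {L : ℕ}
    (f : Fin L → (Fin N → Bool) → Bool) : Prop :=
  (∃ i, ∀ x, f i x = false) ∧
  ∀ i, (∃ C ∈ F, ∀ x, ClauseTrue C x → f i x = true) ∨
    (∃ P : Finset (Fin L), P.card ≤ k ∧ (∀ j ∈ P, j < i) ∧
      ∀ x, (∀ j ∈ P, f j x = true) → f i x = true)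

open Classical in
/-- The indicator function of `f` is a linear combination over the field `K` of indicator
functions of conjunctions of at most `H` members of the family `𝓓` of disjunctive normal
forms. -/
def Low (K : Type*) [Field K] (𝓓 : Finset (Finset (Finset (Fin N × Bool)))) (H : ℕ)
    (f : (Fin N → Bool) → Bool) : Prop :=
  (fun x => if f x = true then (1 : K) else 0) ∈ Submodule.span K
    {g : (Fin N → Bool) → K | ∃ s ⊆ 𝓓, s.card ≤ H ∧
      g = fun x => if ∀ D ∈ s, dval D x then 1 else 0}

end defs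

section cnf

variable {n : ℕ} (π : Equiv.Perm (Fin n)) {q : ℕ} [NeZero q] {r m : ℕ}

/-- the edges at the vertex `v` -/
def ed (v : Fin n) : Finset (Fin n × Bool) := univ.filter (fun e => ghd π e = v ∨ gtl e = v)

lemma ed_card (v : Fin n) : (ed π v).card ≤ 4 := by
  classical
  have h : ed π v ⊆
      {(v, false), (v, true), ((finRotate n).symm v, false), (π.symm v, true)} := by
    rintro ⟨i, s⟩ hi
    simp only [ed, mem_filter, mem_univ, true_and] at hi
    simp only [mem_insert, mem_singleton, Prod.mk.injEq]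
    rcases hi with hi | hi
    · cases s
      · right; right; left
        refine ⟨?_, rfl⟩
        change finRotate n i = v at hi
        rw [← hi, Equiv.symm_apply_apply]
      · right; right; right
        refine ⟨?_, rfl⟩
        change π i = v at hi
        rw [← hi, Equiv.symm_apply_apply]
    · change i = v at hi
      subst hi
      cases s
      · left; exact ⟨rfl, rfl⟩
      · right; left; exact ⟨rfl, rfl⟩
  exact (card_le_card h).trans card_le_four

/-- the variables at the vertex `v` -/
def Wv (r m : ℕ) (v : Fin n) : Finset ((Fin n × Bool) × Fin r × Fin m) :=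
  ed π v ×ˢ (univ : Finset (Fin r × Fin m))

lemma Wv_card (v : Fin n) : (Wv π r m v).card ≤ 4 * (r * m) := by
  unfold Wv
  rw [card_product, card_univ, Fintype.card_prod, Fintype.card_fin, Fintype.card_fin]
  exact Nat.mul_le_mul_right _ (ed_card π v)

lemma flow_congr (v : Fin n) {z z' : Fin n × Bool → ZMod q} (h : ∀ e ∈ ed π v, z e = z' e) :
    flow (ghd π) gtl v z = flow (ghd π) gtl v z' := by
  unfold flow
  refine Finset.sum_congr rfl (fun e _ => ?_)
  by_cases he : e ∈ ed π v
  · rw [h e he]
  · have h0 : dd (ghd π) gtl (Pi.single v (1 : ZMod q)) e = 0 := by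
      simp only [ed, mem_filter, mem_univ, true_and, not_or] at he
      simp only [dd]
      rw [Pi.single_eq_of_ne he.1, Pi.single_eq_of_ne he.2, sub_zero]
    rw [h0, zero_mul, zero_mul]

lemma LC_congr (b : Fin n → ZMod q) (v : Fin n)
    {x x' : (Fin n × Bool) × Fin r × Fin m → Bool} (h : ∀ u ∈ Wv π r m v, x u = x' u) :
    LC π b v x ↔ LC π b v x' := by
  unfold LC
  rw [flow_congr π v (z := zsum q x) (z' := zsum q x')]
  intro e he
  unfold zsum
  refine Finset.sum_congr rfl (fun t _ => Finset.sum_congr rfl (fun j _ => ?_))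
  rw [h (e, t, j) (by simp [Wv, he])]

lemma sum_flow (z : Fin n × Bool → ZMod q) : ∑ v, flow (ghd π) gtl v z = 0 := by
  classical
  unfold flow
  rw [Finset.sum_comm]
  refine Finset.sum_eq_zero (fun e _ => ?_)
  rw [← Finset.sum_mul]
  have : ∑ v : Fin n, dd (ghd π) gtl (Pi.single v (1 : ZMod q)) e = 0 := by
    simp only [dd, Finset.sum_sub_distrib, Pi.single_apply]
    simp
  rw [this, zero_mul]

open Classical in
/-- the clause at `v` that excludes the values of `x` on the variables at `v` -/
noncomputable def cl {N : ℕ} (emb : (Fin n × Bool) × Fin r × Fin m → Fin N) (v : Fin n)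
    (x : (Fin n × Bool) × Fin r × Fin m → Bool) : Finset (Fin N × Bool) :=
  (Wv π r m v).image (fun u => (emb u, !x u))

open Classical in
/-- the conjunctive normal form of the system -/
noncomputable def cnf (b : Fin n → ZMod q) {N : ℕ}
    (emb : (Fin n × Bool) × Fin r × Fin m → Fin N) : Finset (Finset (Fin N × Bool)) :=
  univ.biUnion (fun v => (univ.filter (fun x : (Fin n × Bool) × Fin r × Fin m → Bool =>
    ¬ LC π b v x)).image (cl π emb v))

lemma cnf_width (b : Fin n → ZMod q) {N : ℕ}
    (emb : (Fin n × Bool) × Fin r × Fin m → Fin N) :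
    ∀ C ∈ cnf π b emb, C.card ≤ 4 * (r * m) := by
  classical
  intro C hC
  simp only [cnf, mem_biUnion, mem_image] at hC
  obtain ⟨v, _, x, _, rfl⟩ := hC
  exact card_image_le.trans (Wv_card π v)

lemma cnf_card (b : Fin n → ZMod q) {N : ℕ}
    (emb : (Fin n × Bool) × Fin r × Fin m → Fin N) :
    (cnf π b emb).card ≤ n * 2 ^ (4 * (r * m)) := by
  classical
  have h1 : ∀ v : Fin n, ((univ.filter (fun x : (Fin n × Bool) × Fin r × Fin m → Bool =>
      ¬ LC π b v x)).image (cl π emb v)).card ≤ 2 ^ (4 * (r * m)) := by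
    intro v
    have hsub : (univ.filter (fun x : (Fin n × Bool) × Fin r × Fin m → Bool =>
        ¬ LC π b v x)).image (cl π emb v) ⊆ (Wv π r m v).powerset.image
          (fun s => (Wv π r m v).image (fun u => (emb u, decide (u ∉ s)))) := by
      intro C hC
      rw [mem_image] at hC ⊢
      obtain ⟨x, _, rfl⟩ := hC
      refine ⟨(Wv π r m v).filter (fun u => x u = true), mem_powerset.mpr (filter_subset _ _), ?_⟩
      unfold cl
      refine Finset.image_congr (fun u hu => ?_)
      have hu' : u ∈ Wv π r m v := hu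
      simp only [mem_filter, hu', true_and]
      cases x u <;> simp
    calc _ ≤ _ := card_le_card hsub
      _ ≤ (Wv π r m v).powerset.card := card_image_le
      _ = 2 ^ (Wv π r m v).card := card_powerset _
      _ ≤ _ := Nat.pow_le_pow_right (by norm_num) (Wv_card π v)
  unfold cnf
  calc _ ≤ ∑ v : Fin n, ((univ.filter (fun x : (Fin n × Bool) × Fin r × Fin m → Bool =>
      ¬ LC π b v x)).image (cl π emb v)).card := card_biUnion_le
    _ ≤ ∑ _v : Fin n, 2 ^ (4 * (r * m)) := Finset.sum_le_sum (fun v _ => h1 v)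
    _ = _ := by rw [sum_const, card_univ, Fintype.card_fin, smul_eq_mul]

lemma cnf_unsat (b : Fin n → ZMod q) (hb : ∑ v, b v ≠ 0) {N : ℕ}
    (emb : (Fin n × Bool) × Fin r × Fin m → Fin N) (X : Fin N → Bool) :
    ∃ C ∈ cnf π b emb, ¬ ClauseTrue C X := by
  classical
  set y : (Fin n × Bool) × Fin r × Fin m → Bool := fun u => X (emb u) with hy
  obtain ⟨v, hv⟩ : ∃ v, ¬ LC π b v y := by
    by_contra hcon
    push Not at hcon
    apply hb
    rw [← sum_flow π (zsum q y)]
    exact Finset.sum_congr rfl (fun v _ => (hcon v).symm)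
  refine ⟨cl π emb v y, ?_, ?_⟩
  · simp only [cnf, mem_biUnion, mem_image, mem_univ, true_and, mem_filter]
    exact ⟨v, y, hv, rfl⟩
  · rintro ⟨l, hl, h⟩
    simp only [cl, mem_image] at hl
    obtain ⟨u, _, rfl⟩ := hl
    simp [hy] at h

/-- every clause is implied by a constraint -/
lemma clause_of_LC (b : Fin n → ZMod q) {N : ℕ}
    (emb : (Fin n × Bool) × Fin r × Fin m → Fin N) (ι : Fin N → (Fin n × Bool) × Fin r × Fin m)
    (hι : ∀ u, ι (emb u) = u) (C : Finset (Fin N × Bool)) (hC : C ∈ cnf π b emb) :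
    ∃ v, ∀ y, LC π b v y → ClauseTrue C (fun i => y (ι i)) := by
  classical
  simp only [cnf, mem_biUnion, mem_image, mem_univ, true_and, mem_filter] at hC
  obtain ⟨v, x, hx, rfl⟩ := hC
  refine ⟨v, fun y hy => ?_⟩
  by_contra hcon
  apply hx
  rw [LC_congr π b v (x' := y)]
  · exact hy
  · intro u hu
    by_contra hne
    apply hcon
    refine ⟨(emb u, !x u), mem_image_of_mem _ hu, ?_⟩
    show y (ι (emb u)) = !x u
    rw [hι]
    cases h1 : x u <;> cases h2 : y u <;> simp_all

lemma LC_J (K : Type*) [Field K] (b : Fin n → ZMod q) (v : Fin n)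
    (ω : (Fin n × Bool) × Fin r → Fin m × (Fin m → Bool)) [DecidablePred (LC π b v (r := r) (m := m))] :
    toK K (fun y => decide (LC π b v (merge (rho ω) y))) ∈
      J (ι := (Fin n × Bool) × Fin r × Fin m) (α := Bool) K (4 * r) := by
  classical
  refine junta_mem ((ed π v ×ˢ (univ : Finset (Fin r))).image (av ω)) ?_ ?_
  · refine card_image_le.trans ?_
    rw [card_product, card_univ, Fintype.card_fin]
    exact Nat.mul_le_mul_right _ (ed_card π v)
  · intro y y' h
    have h1 : LC π b v (merge (rho ω) y) ↔ LC π b v (merge (rho ω) y') := by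
      apply LC_congr
      intro u hu
      by_cases h2 : u.2.2 = (ω (bl u)).1
      · rw [merge_alive ω y u h2, merge_alive ω y' u h2]
        apply h
        simp only [coe_image, Set.mem_image]
        refine ⟨bl u, ?_, (eq_av ω u h2).symm⟩
        simp only [Wv, mem_product] at hu
        simp only [coe_product, Set.mem_prod, mem_coe, coe_univ, Set.mem_univ, and_true]
        exact hu.1
      · rw [merge_dead ω y u h2, merge_dead ω y' u h2]
    simp only [toK, h1]

/-- pull back of a disjunctive normal form -/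
def pb {V W : Type*} [DecidableEq W] (ι : V → W) (D : Finset (Finset (V × Bool))) :
    Finset (Finset (W × Bool)) := D.image (fun τ => τ.image (fun l => (ι l.1, l.2)))

lemma dval_pb {V W : Type*} [DecidableEq W] (ι : V → W) (D : Finset (Finset (V × Bool)))
    (y : W → Bool) : dval (pb ι D) y ↔ dval D (fun i => y (ι i)) := by
  constructor
  · rintro ⟨τ', hτ', h⟩
    obtain ⟨τ, hτ, rfl⟩ := mem_image.mp hτ'
    exact ⟨τ, hτ, fun l hl => h (ι l.1, l.2) (mem_image_of_mem _ hl)⟩
  · rintro ⟨τ, hτ, h⟩
    refine ⟨_, mem_image_of_mem _ hτ, fun l' hl' => ?_⟩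
    obtain ⟨l, hl, rfl⟩ := mem_image.mp hl'
    exact h l hl

/-- lines of low degree have low degree after the restriction -/
lemma low_J {K : Type*} [Field K] {N : ℕ} (ι : Fin N → (Fin n × Bool) × Fin r × Fin m)
    {𝓓 : Finset (Finset (Finset (Fin N × Bool)))} {H d : ℕ}
    (ω : (Fin n × Bool) × Fin r → Fin m × (Fin m → Bool))
    (hω : ∀ D ∈ 𝓓, (fun y => ind K (pb ι D) (merge (rho ω) y)) ∈ J K d)
    {f : (Fin N → Bool) → Bool} (hf : Low K 𝓓 H f) :
    toK K (fun y => f (fun i => merge (rho ω) y (ι i))) ∈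
      J (ι := (Fin n × Bool) × Fin r × Fin m) (α := Bool) K (H * d) := by
  classical
  let φ : ((Fin N → Bool) → K) →ₗ[K] (((Fin n × Bool) × Fin r × Fin m → Bool) → K) :=
    { toFun := fun g y => g (fun i => merge (rho ω) y (ι i))
      map_add' := fun _ _ => rfl
      map_smul' := fun _ _ => rfl }
  have h1 : Submodule.span K {g : (Fin N → Bool) → K | ∃ s ⊆ 𝓓, s.card ≤ H ∧
      g = fun x => if ∀ D ∈ s, dval D x then 1 else 0} ≤
      (J (ι := (Fin n × Bool) × Fin r × Fin m) (α := Bool) K (H * d)).comap φ := by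
    rw [Submodule.span_le]
    rintro g ⟨s, hs, hcard, rfl⟩
    show φ _ ∈ J K (H * d)
    have h2 : φ (fun x => if ∀ D ∈ s, dval D x then (1 : K) else 0) =
        ∏ D ∈ s, (fun y => ind K (pb ι D) (merge (rho ω) y)) := by
      funext y
      rw [Finset.prod_apply]
      show (if ∀ D ∈ s, dval D (fun i => merge (rho ω) y (ι i)) then (1 : K) else 0) = _
      by_cases h : ∀ D ∈ s, dval D (fun i => merge (rho ω) y (ι i))
      · rw [if_pos h, Finset.prod_eq_one]
        intro D hD
        have := (dval_pb ι D (merge (rho ω) y)).mpr (h D hD)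
        simp [ind, this]
      · rw [if_neg h]
        push Not at h
        obtain ⟨D, hD, hnot⟩ := h
        rw [Finset.prod_eq_zero hD]
        have : ¬ dval (pb ι D) (merge (rho ω) y) := fun h' => hnot ((dval_pb ι D _).mp h')
        simp [ind, this]
    rw [h2]
    have h3 := J_prod (K := K) s (fun D y => ind K (pb ι D) (merge (rho ω) y)) (fun _ => d)
      (fun D hD => hω D (hs hD))
    rw [sum_const, smul_eq_mul] at h3
    exact J_mono (Nat.mul_le_mul_right d hcard) h3
  have h4 := h1 hf
  have h5 : toK K (fun y => f (fun i => merge (rho ω) y (ι i))) =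
      φ (fun x => if f x = true then (1 : K) else 0) := rfl
  rw [h5]
  exact h4

/-- the core of the lower bound -/
theorem core {K : Type*} [Field K] (ψ : AddChar (ZMod q) K) (hψ : ψ.IsPrimitive)
    (hqK : (q : K) ≠ 0) (hr : r + 1 = q) (hn : 4 ≤ n)
    (hπ : ∀ U : Finset (Fin n), n ≤ 3 * U.card → 3 * U.card ≤ 2 * n →
      n / 60 < (bd (finRotate n) U).card ∨ n / 60 < (bd π U).card)
    (b : Fin n → ZMod q) {N : ℕ} (emb : (Fin n × Bool) × Fin r × Fin m → Fin N)
    (ι : Fin N → (Fin n × Bool) × Fin r × Fin m) (hι : ∀ u, ι (emb u) = u)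
    (κ w k T H : ℕ) (hm : 2 * κ ≤ m) (hm0 : 0 < m)
    (hw : 2 * ((k * (T + 1) + 1) * (H * (aa κ * w) + 4 * r) + 4) ≤ n / 60)
    {L : ℕ} (f : Fin L → (Fin N → Bool) → Bool) (href : IsSemRef (cnf π b emb) k f)
    (Fr : Finset (Fin L)) (hFr : Fr.card ≤ T)
    (𝓓 : Finset (Finset (Finset (Fin N × Bool)))) (h𝓓 : ∀ D ∈ 𝓓, ∀ τ ∈ D, τ.card ≤ κ)
    (hcard : 𝓓.card < 2 ^ w) (hlow : ∀ i ∉ Fr, Low K 𝓓 H (f i)) : False := by
  classical
  obtain ⟨⟨i₀, hi₀⟩, href⟩ := href
  -- the restriction
  obtain ⟨ω, hω⟩ := exists_rho (E := Fin n × Bool) (r := r) K hm hm0 w (𝓓.image (pb ι)) (by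
    intro D' hD' τ' hτ'
    obtain ⟨D, hD, rfl⟩ := mem_image.mp hD'
    unfold pb at hτ'
    obtain ⟨τ, hτ, rfl⟩ := mem_image.mp hτ'
    exact card_image_le.trans (h𝓓 D hD τ hτ)) (lt_of_le_of_lt card_image_le hcard)
  have hω' : ∀ D ∈ 𝓓, (fun y => ind K (pb ι D) (merge (rho ω) y)) ∈ J K (aa κ * w) :=
    fun D hD => hω _ (mem_image_of_mem _ hD)
  -- the pulled back functions
  set fy : Fin L → ((Fin n × Bool) × Fin r × Fin m → Bool) → Bool :=
    fun i y => f i (fun j => y (ι j)) with hfy
  set Ax : Fin L → Prop := fun i => ∃ v, ∀ y, LC π b v y → fy i y = true with hAx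
  have hP : ∀ i, ∃ P : Finset (Fin L), P.card ≤ k ∧ (∀ j ∈ P, j < i) ∧
      (¬ Ax i → ∀ y, (∀ j ∈ P, fy j y = true) → fy i y = true) := by
    intro i
    rcases href i with ⟨C, hC, h⟩ | ⟨P, hP1, hP2, hP3⟩
    · refine ⟨∅, by simp, by simp, ?_⟩
      intro hax
      exfalso
      apply hax
      obtain ⟨v, hv⟩ := clause_of_LC π b emb ι hι C hC
      exact ⟨v, fun y hy => h _ (hv y hy)⟩
    · exact ⟨P, hP1, hP2, fun _ y hy => hP3 _ hy⟩
  choose P hPk hPlt hPimp using hP
  set Keep : Fin L → Prop := fun i => i ∉ Fr ∨ ∀ x, f i x = false with hKeep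
  have hcs : ∀ i, Ax i → ∃ v, ∀ y, LC π b v y → fy i y = true := fun i h => h
  let ch : Fin L → Fin n := fun i => if h : Ax i then (hcs i h).choose else ⟨0, by omega⟩
  have hch : ∀ i, Ax i → ∀ y, LC π b (ch i) y → fy i y = true := by
    intro i h
    simp only [ch, dif_pos h]
    exact (hcs i h).choose_spec
  let g : Fin L → ((Fin n × Bool) × Fin r × Fin m → Bool) → Bool := fun i =>
    if Keep i then fy i else if Ax i then (fun y => decide (LC π b (ch i) y)) else fun _ => true
  have hg1 : ∀ i, Keep i → g i = fy i := fun i h => by simp only [g, if_pos h]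
  have hg2 : ∀ i, ¬ Keep i → Ax i → g i = fun y => decide (LC π b (ch i) y) :=
    fun i h h' => by simp only [g, if_neg h, if_pos h']
  have hg3 : ∀ i, ¬ Keep i → ¬ Ax i → g i = fun _ => true :=
    fun i h h' => by simp only [g, if_neg h, if_neg h']
  -- the premises
  let Q : Fin L → Finset (Fin L) := fun i => (P i ∪ Fr.biUnion P).filter (· < i)
  have hQk : ∀ i, (Q i).card ≤ k * (T + 1) := by
    intro i
    calc (Q i).card ≤ (P i ∪ Fr.biUnion P).card := card_le_card (filter_subset _ _)
      _ ≤ (P i).card + (Fr.biUnion P).card := card_union_le _ _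
      _ ≤ k + ∑ j ∈ Fr, (P j).card := Nat.add_le_add (hPk i) card_biUnion_le
      _ ≤ k + ∑ _j ∈ Fr, k := Nat.add_le_add_left (Finset.sum_le_sum (fun j _ => hPk j)) _
      _ = k + Fr.card * k := by rw [sum_const, smul_eq_mul]
      _ ≤ k + T * k := Nat.add_le_add_left (Nat.mul_le_mul_right _ hFr) _
      _ = k * (T + 1) := by ring
  have hQ : ∀ i y, (∀ j ∈ Q i, g j y = true) → ∀ j ∈ Q i, fy j y = true := by
    intro i y hy
    have key : ∀ t : ℕ, ∀ j ∈ Q i, j.val = t → fy j y = true := by
      intro t
      induction t using Nat.strong_induction_on with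
      | _ t ih =>
        intro j hj hjt
        have hgj := hy j hj
        by_cases hk : Keep j
        · rw [hg1 j hk] at hgj; exact hgj
        · by_cases ha : Ax j
          · rw [hg2 j hk ha] at hgj
            exact hch j ha y (of_decide_eq_true hgj)
          · apply hPimp j ha
            intro j' hj'
            have hlt := hPlt j j' hj'
            have hji : j < i := (mem_filter.mp hj).2
            have hjFr : j ∈ Fr := by
              by_contra h
              exact hk (Or.inl h)
            have hmem : j' ∈ Q i := by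
              refine mem_filter.mpr ⟨mem_union_right _ (mem_biUnion.mpr ⟨j, hjFr, hj'⟩), ?_⟩
              exact hlt.trans hji
            exact ih j'.val (by rw [← hjt]; exact hlt) j' hmem rfl
    intro j hj
    exact key j.val j hj rfl
  have hsound : Sound (LC π b) (k * (T + 1)) g := by
    intro i
    by_cases ha : Ax i
    · left
      refine ⟨ch i, fun y hy => ?_⟩
      by_cases hk : Keep i
      · rw [hg1 i hk]; exact hch i ha y hy
      · rw [hg2 i hk ha]; exact decide_eq_true hy
    · right
      refine ⟨Q i, hQk i, fun j hj => (mem_filter.mp hj).2, fun y hy => ?_⟩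
      by_cases hk : Keep i
      · rw [hg1 i hk]
        apply hPimp i ha
        intro j hj
        exact hQ i y hy j (mem_filter.mpr ⟨mem_union_left _ hj, hPlt i j hj⟩)
      · rw [hg3 i hk ha]
  have hdeg : ∀ i, toK K (fun y => g i (merge (rho ω) y)) ∈
      J (ι := (Fin n × Bool) × Fin r × Fin m) (α := Bool) K (H * (aa κ * w) + 4 * r) := by
    intro i
    by_cases hk : Keep i
    · rw [hg1 i hk]
      by_cases hF : i ∈ Fr
      · have h0 : ∀ x, f i x = false := by
          rcases hk with h | h
          · exact absurd hF h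
          · exact h
        have : toK K (fun y => fy i (merge (rho ω) y)) = fun _ => (0 : K) := by
          funext y
          simp [toK, hfy, h0]
        rw [this]
        exact J_const 0 _
      · exact J_mono (by omega) (low_J ι ω hω' (hlow i hF))
    · by_cases ha : Ax i
      · rw [hg2 i hk ha]
        exact J_mono (by omega) (LC_J π K b (ch i) ω)
      · rw [hg3 i hk ha]
        have : toK K (fun _ : (Fin n × Bool) × Fin r × Fin m → Bool => true) =
            fun _ => (1 : K) := by
          funext y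
          simp [toK]
        rw [this]
        exact J_const 1 _
  obtain ⟨y, hy⟩ := lifted_no_low_degree π ψ hψ hqK hr hn hπ b
    (H * (aa κ * w) + 4 * r) (k * (T + 1)) hw g hsound (rho ω)
    (fun e t => ⟨(ω (e, t)).1, by simp [rho, bl]⟩) hdeg i₀
  rw [hg1 i₀ (Or.inr hi₀)] at hy
  simp [hfy, hi₀] at hy

end cnf

end Pool.Agent.V8H39.Sem
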