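import Mathlib

/-!
Product spaces: mixing two points, independence, and families of events on disjoint blocks.
-/

set_option linter.unusedSectionVars false

namespace Pool.Agent.V8H39.Sem

open Finset

section mix

variable {B A : Type*} [Fintype B] [DecidableEq B] [Fintype A]

/-- `α` on `S` and `β` elsewhere -/
def mix (S : Finset B) (α β : B → A) : B → A := fun b => if b ∈ S then α b else β b

lemma mix_in {S : Finset B} {α β : B → A} {b : B} (h : b ∈ S) : mix S α β b = α b := by
  simp [mix, h]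

lemma mix_out {S : Finset B} {α β : B → A} {b : B} (h : b ∉ S) : mix S α β b = β b := by
  simp [mix, h]

lemma mix_mix (S : Finset B) (α β : B → A) : mix S (mix S α β) (mix S β α) = α := by
  funext b
  by_cases h : b ∈ S <;> simp [mix, h]

lemma mixcount (S : Finset B) (R : (B → A) → (B → A) → Prop) [DecidableRel R]
    (hR : ∀ α α' β β', (∀ b ∈ S, α b = α' b) → (∀ b ∉ S, β b = β' b) → (R α β ↔ R α' β')) :
    (univ.filter (fun ω => R ω ω)).card * Fintype.card (B → A) =
      ∑ α, (univ.filter (fun β => R α β)).card := by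
  classical
  have h1 : (univ.filter (fun ω : B → A => R ω ω)).card * Fintype.card (B → A) =
      (univ.filter (fun p : (B → A) × (B → A) => R p.1 p.1)).card := by
    rw [← card_univ, ← card_product]
    congr 1
    ext p
    simp
  have h2 : ∑ α, (univ.filter (fun β => R α β)).card =
      (univ.filter (fun p : (B → A) × (B → A) => R p.1 p.2)).card := by
    rw [card_filter, Fintype.sum_prod_type]
    exact Finset.sum_congr rfl (fun α _ => by rw [card_filter])
  rw [h1, h2]
  refine Finset.card_bij' (fun p _ => (mix S p.1 p.2, mix S p.2 p.1))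
    (fun p _ => (mix S p.1 p.2, mix S p.2 p.1)) ?_ ?_ ?_ ?_
  · rintro ⟨ω, ω'⟩ h
    simp only [mem_filter, mem_univ, true_and] at h ⊢
    refine (hR ω _ ω _ (fun b hb => (mix_in hb).symm) (fun b hb => (mix_out hb).symm)).mp h
  · rintro ⟨α, β⟩ h
    simp only [mem_filter, mem_univ, true_and] at h ⊢
    refine (hR α _ β _ (fun b hb => (mix_in hb).symm) (fun b hb => (mix_out hb).symm)).mp h
  · rintro ⟨ω, ω'⟩ _
    simp only [mix_mix]
  · rintro ⟨ω, ω'⟩ _
    simp only [mix_mix]

open Classical in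
/-- events on disjoint sets of coordinates, each of proportion at least `1 / n` -/
lemma fam_count {ι : Type*} (n : ℕ) (hn : 1 ≤ n) (bs : ι → Finset B) (Ev : ι → (B → A) → Prop)
    (hdep : ∀ i α α', (∀ b ∈ bs i, α b = α' b) → (Ev i α ↔ Ev i α'))
    (𝓕 : Finset ι) (hdisj : ∀ i ∈ 𝓕, ∀ j ∈ 𝓕, i ≠ j → Disjoint (bs i) (bs j))
    (hlow : ∀ i ∈ 𝓕, Fintype.card (B → A) ≤ n * (univ.filter (fun ω => Ev i ω)).card) :
    n ^ 𝓕.card * (univ.filter (fun ω => ∀ i ∈ 𝓕, ¬ Ev i ω)).card ≤
      (n - 1) ^ 𝓕.card * Fintype.card (B → A) := by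
  induction 𝓕 using Finset.induction_on with
  | empty => simp [card_univ]
  | insert i 𝓕 hi ih =>
    have ih' := ih (fun j hj j' hj' => hdisj j (mem_insert_of_mem hj) j' (mem_insert_of_mem hj'))
      (fun j hj => hlow j (mem_insert_of_mem hj))
    have hmix := mixcount (bs i) (fun α β : B → A => ¬ Ev i α ∧ ∀ j ∈ 𝓕, ¬ Ev j β) (by
      intro α α' β β' h1 h2
      rw [hdep i α α' h1]
      refine and_congr Iff.rfl ?_
      refine forall_congr' (fun j => forall_congr' (fun hj => ?_))
      rw [hdep j β β' (fun b hb => h2 b (fun hb' => ?_))]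
      have hd := hdisj i (mem_insert_self _ _) j (mem_insert_of_mem hj)
        (fun h => hi (h ▸ hj))
      exact (Finset.disjoint_left.mp hd) hb' hb)
    have h1 : (univ.filter (fun ω : B → A => ∀ j ∈ insert i 𝓕, ¬ Ev j ω)) =
        univ.filter (fun ω : B → A => ¬ Ev i ω ∧ ∀ j ∈ 𝓕, ¬ Ev j ω) := by
      ext ω
      simp
    have h2 : ∑ α : B → A, (univ.filter (fun β : B → A => ¬ Ev i α ∧ ∀ j ∈ 𝓕, ¬ Ev j β)).card =
        (univ.filter (fun α : B → A => ¬ Ev i α)).card *
          (univ.filter (fun β : B → A => ∀ j ∈ 𝓕, ¬ Ev j β)).card := by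
      rw [card_filter (fun α : B → A => ¬ Ev i α), Finset.sum_mul]
      refine Finset.sum_congr rfl (fun α _ => ?_)
      by_cases hα : Ev i α
      · simp [hα]
      · simp [hα]
    rw [h1, card_insert_of_notMem hi]
    have hmix2 : (univ.filter (fun ω : B → A => ¬ Ev i ω ∧ ∀ j ∈ 𝓕, ¬ Ev j ω)).card *
        Fintype.card (B → A) = (univ.filter (fun α : B → A => ¬ Ev i α)).card *
          (univ.filter (fun β : B → A => ∀ j ∈ 𝓕, ¬ Ev j β)).card := by
      rw [← h2]
      exact hmix
    set X := Fintype.card (B → A) with hX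
    set a := (univ.filter (fun α : B → A => ¬ Ev i α)).card with ha
    set c := (univ.filter (fun β : B → A => ∀ j ∈ 𝓕, ¬ Ev j β)).card with hc
    set e := (univ.filter (fun ω : B → A => ¬ Ev i ω ∧ ∀ j ∈ 𝓕, ¬ Ev j ω)).card with he
    have h3 : n * a ≤ (n - 1) * X := by
      have h4 := Finset.card_filter_add_card_filter_not (s := (univ : Finset (B → A)))
        (fun α => Ev i α)
      rw [card_univ] at h4
      have h5 := hlow i (mem_insert_self _ _)
      have h6 : (univ.filter (fun α : B → A => Ev i α)).card + a = X := h4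
      obtain ⟨n', rfl⟩ : ∃ n', n = n' + 1 := ⟨n - 1, by omega⟩
      simp only [Nat.add_sub_cancel]
      nlinarith
    rcases Nat.eq_zero_or_pos X with h0 | h0
    · have : e ≤ X := by
        rw [he, hX, ← card_univ]
        exact card_le_card (filter_subset _ _)
      have : e = 0 := by omega
      rw [this]
      simp
    · refine Nat.le_of_mul_le_mul_right ?_ h0
      calc n ^ (𝓕.card + 1) * e * X = n ^ (𝓕.card + 1) * (e * X) := by ring
        _ = n ^ (𝓕.card + 1) * (a * c) := by rw [hmix2]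
        _ = (n * a) * (n ^ 𝓕.card * c) := by ring
        _ ≤ ((n - 1) * X) * ((n - 1) ^ 𝓕.card * X) := Nat.mul_le_mul h3 ih'
        _ = (n - 1) ^ (𝓕.card + 1) * X * X := by ring

end mix

/-- `2 (n - 1) ^ n ≤ n ^ n` -/
lemma two_mul_pred_pow (n : ℕ) (hn : 1 ≤ n) : 2 * (n - 1) ^ n ≤ n ^ n := by
  obtain ⟨a, rfl⟩ : ∃ a, n = a + 1 := ⟨n - 1, by omega⟩
  simp only [Nat.add_sub_cancel]
  have h1 : ∀ j : ℕ, a ^ (j + 1) + (j + 1) * a ^ j ≤ (a + 1) ^ (j + 1) := by
    intro j
    induction j with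
    | zero => simp
    | succ j ih =>
      have h3 : (a + 1) * (a ^ (j + 1) + (j + 1) * a ^ j) ≤ (a + 1) * (a + 1) ^ (j + 1) :=
        Nat.mul_le_mul_left _ ih
      have h4 : (a + 1) * (a + 1) ^ (j + 1) = (a + 1) ^ (j + 1 + 1) := by ring
      have h5 : (a + 1) * (a ^ (j + 1) + (j + 1) * a ^ j) =
          a ^ (j + 1 + 1) + (j + 1 + 1) * a ^ (j + 1) + (j + 1) * a ^ j := by ring
      omega
  have h2 := h1 a
  have h3 : a ^ (a + 1) = a * a ^ a := by ring
  have h4 : (a + 1) * a ^ a = a * a ^ a + a ^ a := by ring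
  have : 2 * a ^ (a + 1) ≤ a ^ (a + 1) + (a + 1) * a ^ a := by
    rw [h4, ← h3]; omega
  omega

lemma pred_pow_half (n w c : ℕ) (hn : 1 ≤ n) (hc : n * w ≤ c) :
    2 ^ w * (n - 1) ^ c ≤ n ^ c := by
  have h1 : 2 ^ w * (n - 1) ^ (n * w) ≤ n ^ (n * w) := by
    rw [pow_mul, pow_mul, ← mul_pow]
    exact Nat.pow_le_pow_left (two_mul_pred_pow n hn) w
  calc 2 ^ w * (n - 1) ^ c = 2 ^ w * (n - 1) ^ (n * w) * (n - 1) ^ (c - n * w) := by
        rw [mul_assoc, ← pow_add]; congr 2; omega
    _ ≤ n ^ (n * w) * n ^ (c - n * w) :=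
        Nat.mul_le_mul h1 (Nat.pow_le_pow_left (Nat.sub_le _ _) _)
    _ = n ^ c := by rw [← pow_add]; congr 1; omega

end Pool.Agent.V8H39.Sem
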