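import Pool.Agent.Helper600R2.Lift
import Pool.Agent.V8H39.Sem.Mix

/-!
Random restrictions that leave exactly one variable of each block alive turn disjunctive normal
forms with short terms into functions of low degree.
-/

set_option linter.unusedSectionVars false

namespace Pool.Agent.V8H39.Sem

open Finset Pool.Agent.Helper600R2

/-- truth of the disjunctive normal form `D` (a finite set of terms, a term being a finite set of
literals) -/
def dval {V : Type*} (D : Finset (Finset (V × Bool))) (x : V → Bool) : Prop :=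
  ∃ τ ∈ D, ∀ l ∈ τ, x l.1 = l.2

open Classical in
/-- indicator function of `dval D` -/
noncomputable def ind {V : Type*} (K : Type*) [Field K] (D : Finset (Finset (V × Bool))) :
    (V → Bool) → K := fun x => if dval D x then 1 else 0

section

variable {E : Type*} [Fintype E] [DecidableEq E] {r m : ℕ}

/-- the block of a variable -/
def bl (v : E × Fin r × Fin m) : E × Fin r := (v.1, v.2.1)

/-- restriction given by, for each block, the position of the variable that stays alive and the
values of the others -/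
def rho (ω : E × Fin r → Fin m × (Fin m → Bool)) : E × Fin r × Fin m → Bool × Bool :=
  fun v => (decide (v.2.2 = (ω (bl v)).1), (ω (bl v)).2 v.2.2)

/-- the variable of the block `b` that stays alive -/
def av (ω : E × Fin r → Fin m × (Fin m → Bool)) (b : E × Fin r) : E × Fin r × Fin m :=
  (b.1, b.2, (ω b).1)

lemma merge_alive (ω : E × Fin r → Fin m × (Fin m → Bool)) (y : E × Fin r × Fin m → Bool)
    (v : E × Fin r × Fin m) (h : v.2.2 = (ω (bl v)).1) : merge (rho ω) y v = y v := by
  simp [merge, rho, h]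

lemma merge_dead (ω : E × Fin r → Fin m × (Fin m → Bool)) (y : E × Fin r × Fin m → Bool)
    (v : E × Fin r × Fin m) (h : v.2.2 ≠ (ω (bl v)).1) :
    merge (rho ω) y v = (ω (bl v)).2 v.2.2 := by
  simp [merge, rho, h]

lemma eq_av (ω : E × Fin r → Fin m × (Fin m → Bool)) (v : E × Fin r × Fin m)
    (h : v.2.2 = (ω (bl v)).1) : v = av ω (bl v) := by
  obtain ⟨e, t, j⟩ := v
  simp only [av, bl] at h ⊢
  rw [← h]

/-- the restriction makes the term true -/
def Dead (ω : E × Fin r → Fin m × (Fin m → Bool)) (τ : Finset ((E × Fin r × Fin m) × Bool)) :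
    Prop :=
  ∀ l ∈ τ, l.1.2.2 ≠ (ω (bl l.1)).1 ∧ (ω (bl l.1)).2 l.1.2.2 = l.2

/-- the blocks of a term -/
def bs (τ : Finset ((E × Fin r × Fin m) × Bool)) : Finset (E × Fin r) :=
  τ.image (fun l => bl l.1)

lemma dead_congr {ω ω' : E × Fin r → Fin m × (Fin m → Bool)}
    {τ : Finset ((E × Fin r × Fin m) × Bool)} (h : ∀ b ∈ bs τ, ω b = ω' b) :
    Dead ω τ ↔ Dead ω' τ := by
  refine forall_congr' (fun l => forall_congr' (fun hl => ?_))
  rw [h (bl l.1) (mem_image_of_mem _ hl)]

lemma num_block {m a t : ℕ} (h1 : a ≤ t) (h2 : 2 * t ≤ m) :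
    m * 2 ^ m ≤ 4 ^ t * ((m - a) * 2 ^ (m - a)) := by
  rcases Nat.eq_zero_or_pos t with h | h
  · have ha : a = 0 := by omega
    subst ha
    subst h
    simp
  · have e1 : (4 : ℕ) ^ t = 2 ^ t * 2 ^ t := by
      rw [← mul_pow]
      norm_num
    have e2 : (2 : ℕ) ^ t * 2 ^ (m - a) = 2 ^ m * 2 ^ (t - a) := by
      rw [← pow_add, ← pow_add]; congr 1; omega
    have e3 : 2 ≤ 2 ^ t := by
      calc 2 = 2 ^ 1 := rfl
        _ ≤ 2 ^ t := Nat.pow_le_pow_right (by norm_num) h
    have e4 : 1 ≤ 2 ^ (t - a) := Nat.one_le_two_pow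
    calc m * 2 ^ m ≤ (2 * (m - a)) * 2 ^ m := Nat.mul_le_mul_right _ (by omega)
      _ = 2 * ((m - a) * (2 ^ m * 1)) := by ring
      _ ≤ 2 ^ t * ((m - a) * (2 ^ m * 2 ^ (t - a))) :=
          Nat.mul_le_mul e3 (Nat.mul_le_mul_left _ (Nat.mul_le_mul_left _ e4))
      _ = 2 ^ t * ((m - a) * (2 ^ t * 2 ^ (m - a))) := by rw [e2]
      _ = 4 ^ t * ((m - a) * 2 ^ (m - a)) := by rw [e1]; ring

/-- a consistent term -/
def Cons (τ : Finset ((E × Fin r × Fin m) × Bool)) : Prop :=
  ∀ l ∈ τ, ∀ l' ∈ τ, l.1 = l'.1 → l = l'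

open Classical in
lemma dead_card (τ : Finset ((E × Fin r × Fin m) × Bool)) (hc : Cons τ)
    {κ : ℕ} (hκ : τ.card ≤ κ) (hm : 2 * κ ≤ m) :
    Fintype.card (E × Fin r → Fin m × (Fin m → Bool)) ≤
      4 ^ κ * (univ.filter (fun ω : E × Fin r → Fin m × (Fin m → Bool) => Dead ω τ)).card := by
  set G : E × Fin r → Finset (Fin m × (Fin m → Bool)) := fun b =>
    univ.filter (fun a => ∀ l ∈ τ, bl l.1 = b → l.1.2.2 ≠ a.1 ∧ a.2 l.1.2.2 = l.2) with hG
  set t : E × Fin r → ℕ := fun b => (τ.filter (fun l => bl l.1 = b)).card with ht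
  have h1 : (univ.filter (fun ω : E × Fin r → Fin m × (Fin m → Bool) => Dead ω τ)) =
      Fintype.piFinset G := by
    ext ω
    rw [mem_filter, Fintype.mem_piFinset]
    constructor
    · rintro ⟨_, h⟩ b
      simp only [hG, mem_filter, mem_univ, true_and]
      intro l hl hb
      subst hb
      exact h l hl
    · intro h
      refine ⟨mem_univ _, fun l hl => ?_⟩
      have h2 := h (bl l.1)
      simp only [hG, mem_filter, mem_univ, true_and] at h2
      exact h2 l hl rfl
  have hsum : ∑ b, t b = τ.card := by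
    rw [Finset.card_eq_sum_card_fiberwise (f := fun l => bl l.1) (t := univ)]
    intro l _
    simp
  have hblock : ∀ b, Fintype.card (Fin m × (Fin m → Bool)) ≤ 4 ^ (t b) * (G b).card := by
    intro b
    have htκ : t b ≤ κ := by
      refine le_trans ?_ hκ
      exact card_le_card (filter_subset _ _)
    set P : Finset (Fin m) := (τ.filter (fun l => bl l.1 = b)).image (fun l => l.1.2.2) with hP
    have hPt : P.card ≤ t b := card_image_le
    set H : Fin m → Finset Bool := fun j =>
      univ.filter (fun s => ∀ l ∈ τ, bl l.1 = b → l.1.2.2 = j → s = l.2) with hH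
    have hsub : Pᶜ ×ˢ Fintype.piFinset H ⊆ G b := by
      rintro ⟨a, u⟩ h
      simp only [mem_product, mem_compl, Fintype.mem_piFinset, hH, mem_filter, mem_univ,
        true_and, hG] at h ⊢
      intro l hl hb
      refine ⟨?_, h.2 _ l hl hb rfl⟩
      rintro rfl
      apply h.1
      rw [hP, mem_image]
      exact ⟨l, by simp [hl, hb], rfl⟩
    have hHc : ∀ j, (if j ∈ P then 1 else 2) ≤ (H j).card := by
      intro j
      by_cases hj : j ∈ P
      · rw [if_pos hj]
        rw [hP, mem_image] at hj
        obtain ⟨l₀, hl₀, hj₀⟩ := hj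
        rw [mem_filter] at hl₀
        rw [Nat.succ_le_iff, card_pos]
        refine ⟨l₀.2, ?_⟩
        simp only [hH, mem_filter, mem_univ, true_and]
        intro l hl hb hj
        have : l₀.1 = l.1 := by
          have e1 : bl l₀.1 = bl l.1 := hl₀.2.trans hb.symm
          simp only [bl, Prod.mk.injEq] at e1
          exact Prod.ext e1.1 (Prod.ext e1.2 (hj₀.trans hj.symm))
        rw [hc l₀ hl₀.1 l hl this]
      · rw [if_neg hj]
        have : H j = univ := by
          ext s
          simp only [hH, mem_filter, mem_univ, true_and, iff_true]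
          intro l hl hb hj'
          exfalso
          apply hj
          rw [hP, mem_image]
          exact ⟨l, by simp [hl, hb], hj'⟩
        rw [this]
        simp
    have hprod : 2 ^ (m - P.card) ≤ (Fintype.piFinset H).card := by
      rw [Fintype.card_piFinset]
      calc 2 ^ (m - P.card) = ∏ j : Fin m, (if j ∈ P then 1 else 2) := by
            rw [Finset.prod_ite]
            simp only [prod_const_one, one_mul, prod_const]
            congr 1
            have : (univ.filter (fun j : Fin m => j ∉ P)) = Pᶜ := by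
              ext j; simp
            rw [this, card_compl, Fintype.card_fin]
        _ ≤ _ := Finset.prod_le_prod' (fun j _ => hHc j)
    have hcardG : (m - P.card) * 2 ^ (m - P.card) ≤ (G b).card := by
      refine le_trans ?_ (card_le_card hsub)
      rw [card_product, card_compl, Fintype.card_fin]
      exact Nat.mul_le_mul_left _ hprod
    have hA : Fintype.card (Fin m × (Fin m → Bool)) = m * 2 ^ m := by
      rw [Fintype.card_prod, Fintype.card_fin, Fintype.card_fun, Fintype.card_fin,
        Fintype.card_bool]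
    rw [hA]
    refine (num_block hPt (by omega : 2 * t b ≤ m)).trans ?_
    exact Nat.mul_le_mul_left _ hcardG
  rw [h1, Fintype.card_piFinset, Fintype.card_fun]
  calc Fintype.card (Fin m × (Fin m → Bool)) ^ Fintype.card (E × Fin r)
      = ∏ _b : E × Fin r, Fintype.card (Fin m × (Fin m → Bool)) := by
        rw [prod_const, card_univ]
    _ ≤ ∏ b : E × Fin r, (4 ^ (t b) * (G b).card) :=
        Finset.prod_le_prod' (fun b _ => hblock b)
    _ = 4 ^ (∑ b, t b) * ∏ b, (G b).card := by
        rw [Finset.prod_mul_distrib, Finset.prod_pow_eq_pow_sum]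
    _ ≤ 4 ^ κ * ∏ b, (G b).card := by
        rw [hsum]
        exact Nat.mul_le_mul_right _ (Nat.pow_le_pow_right (by norm_num) hκ)

/-- the constants -/
def aa : ℕ → ℕ
  | 0 => 0
  | κ + 1 => (κ + 1) * 4 ^ (κ + 1) + aa κ * ((κ + 1) * 4 ^ (κ + 1) + 1)

open Classical in
/-- the disjunctive normal form after all variables of the blocks in `S` are set as in `α`, the
variables that are alive being set to the indicator of `U` -/
noncomputable def red (D : Finset (Finset ((E × Fin r × Fin m) × Bool))) (S : Finset (E × Fin r))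
    (α : E × Fin r → Fin m × (Fin m → Bool)) (U : Finset (E × Fin r)) :
    Finset (Finset ((E × Fin r × Fin m) × Bool)) :=
  (D.filter (fun τ => ∀ l ∈ τ, bl l.1 ∈ S →
    (if l.1.2.2 = (α (bl l.1)).1 then decide (bl l.1 ∈ U) else (α (bl l.1)).2 l.1.2.2) = l.2)).image
    (fun τ => τ.filter (fun l => bl l.1 ∉ S))

lemma red_congr (D : Finset (Finset ((E × Fin r × Fin m) × Bool))) (S : Finset (E × Fin r))
    {α α' : E × Fin r → Fin m × (Fin m → Bool)} (h : ∀ b ∈ S, α b = α' b)
    (U : Finset (E × Fin r)) : red D S α U = red D S α' U := by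
  classical
  unfold red
  congr 1
  apply Finset.filter_congr
  intro τ _
  refine forall_congr' (fun l => forall_congr' (fun _ => forall_congr' (fun hb => ?_)))
  rw [h _ hb]

lemma dval_red (D : Finset (Finset ((E × Fin r × Fin m) × Bool))) (S : Finset (E × Fin r))
    (ω : E × Fin r → Fin m × (Fin m → Bool)) (y : E × Fin r × Fin m → Bool) :
    dval D (merge (rho ω) y) ↔
      dval (red D S ω (S.filter (fun b => y (av ω b) = true))) (merge (rho ω) y) := by
  classical
  have key : ∀ v : E × Fin r × Fin m, bl v ∈ S →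
      merge (rho ω) y v = (if v.2.2 = (ω (bl v)).1 then
        decide (bl v ∈ S.filter (fun b => y (av ω b) = true)) else (ω (bl v)).2 v.2.2) := by
    intro v hv
    by_cases h : v.2.2 = (ω (bl v)).1
    · rw [if_pos h, merge_alive ω y v h]
      have h2 := eq_av ω v h
      simp only [mem_filter, hv, true_and]
      rw [← h2]
      simp
    · rw [if_neg h, merge_dead ω y v h]
  constructor
  · rintro ⟨τ, hτ, h⟩
    refine ⟨τ.filter (fun l => bl l.1 ∉ S), ?_, ?_⟩
    · unfold red
      refine mem_image_of_mem _ ?_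
      rw [mem_filter]
      refine ⟨hτ, fun l hl hb => ?_⟩
      rw [← key l.1 hb]
      exact h l hl
    · intro l hl
      exact h l (mem_filter.mp hl).1
  · rintro ⟨τ', hτ', h⟩
    unfold red at hτ'
    rw [mem_image] at hτ'
    obtain ⟨τ, hτ, rfl⟩ := hτ'
    rw [mem_filter] at hτ
    refine ⟨τ, hτ.1, fun l hl => ?_⟩
    by_cases hb : bl l.1 ∈ S
    · rw [key l.1 hb]
      exact hτ.2 l hl hb
    · exact h l (mem_filter.mpr ⟨hl, hb⟩)

lemma red_blocks {D : Finset (Finset ((E × Fin r × Fin m) × Bool))} {S : Finset (E × Fin r)}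
    {α : E × Fin r → Fin m × (Fin m → Bool)} {U : Finset (E × Fin r)} :
    ∀ τ ∈ red D S α U, ∀ l ∈ τ, bl l.1 ∉ S := by
  classical
  intro τ hτ l hl
  unfold red at hτ
  rw [mem_image] at hτ
  obtain ⟨τ', _, rfl⟩ := hτ
  exact (mem_filter.mp hl).2

lemma red_card {D : Finset (Finset ((E × Fin r × Fin m) × Bool))} {S : Finset (E × Fin r)}
    {α : E × Fin r → Fin m × (Fin m → Bool)} {U : Finset (E × Fin r)} {κ : ℕ}
    (hD : ∀ τ ∈ D, τ.card ≤ κ + 1) (hS : ∀ τ ∈ D, ∃ l ∈ τ, bl l.1 ∈ S) :
    ∀ τ ∈ red D S α U, τ.card ≤ κ := by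
  classical
  intro τ hτ
  unfold red at hτ
  rw [mem_image] at hτ
  obtain ⟨τ', hτ', rfl⟩ := hτ
  have h1 := (mem_filter.mp hτ').1
  obtain ⟨l, hl, hb⟩ := hS τ' h1
  have h2 : (τ'.filter (fun l => bl l.1 ∉ S)).card < τ'.card := by
    apply card_lt_card
    rw [Finset.ssubset_iff_of_subset (filter_subset _ _)]
    exact ⟨l, hl, fun h => (mem_filter.mp h).2 hb⟩
  have := hD τ' h1
  omega

variable (K : Type*) [Field K]

lemma ind_congr_off {D : Finset (Finset ((E × Fin r × Fin m) × Bool))} {S : Finset (E × Fin r)}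
    (hD : ∀ τ ∈ D, ∀ l ∈ τ, bl l.1 ∉ S) {β β' : E × Fin r → Fin m × (Fin m → Bool)}
    (h : ∀ b ∉ S, β b = β' b) :
    (fun y => ind K D (merge (rho β) y)) = fun y => ind K D (merge (rho β') y) := by
  classical
  funext y
  have : dval D (merge (rho β) y) ↔ dval D (merge (rho β') y) := by
    refine exists_congr (fun τ => and_congr_right (fun hτ => ?_))
    refine forall_congr' (fun l => forall_congr' (fun hl => ?_))
    have h1 := h _ (hD τ hτ l hl)
    have : merge (rho β) y l.1 = merge (rho β') y l.1 := by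
      by_cases h2 : l.1.2.2 = (β (bl l.1)).1
      · rw [merge_alive β y _ h2, merge_alive β' y _ (h1 ▸ h2)]
      · rw [merge_dead β y _ h2, merge_dead β' y _ (h1 ▸ h2), h1]
    rw [this]
  simp only [ind, this]

open Classical in
/-- expansion along the variables that stay alive in the blocks of `S` -/
lemma ind_expand (D : Finset (Finset ((E × Fin r × Fin m) × Bool))) (S : Finset (E × Fin r))
    (ω : E × Fin r → Fin m × (Fin m → Bool)) :
    (fun y => ind K D (merge (rho ω) y)) = ∑ U ∈ S.powerset,
      (fun y : E × Fin r × Fin m → Bool =>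
        if S.filter (fun b => y (av ω b) = true) = U then (1 : K) else 0) *
      (fun y => ind K (red D S ω U) (merge (rho ω) y)) := by
  funext y
  rw [Finset.sum_apply]
  rw [Finset.sum_eq_single_of_mem (S.filter (fun b => y (av ω b) = true))
    (mem_powerset.mpr (filter_subset _ _))]
  · simp only [Pi.mul_apply, if_true, one_mul]
    have h := dval_red D S ω y
    simp only [ind, h]
  · intro U _ hne
    simp only [Pi.mul_apply]
    rw [if_neg (fun h => hne h.symm), zero_mul]

open Classical in
lemma sel_mem (S : Finset (E × Fin r)) (ω : E × Fin r → Fin m × (Fin m → Bool))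
    (U : Finset (E × Fin r)) :
    (fun y : E × Fin r × Fin m → Bool =>
        if S.filter (fun b => y (av ω b) = true) = U then (1 : K) else 0) ∈ J K S.card := by
  refine junta_mem (S.image (av ω)) card_image_le ?_
  intro y y' h
  have : S.filter (fun b => y (av ω b) = true) = S.filter (fun b => y' (av ω b) = true) := by
    apply Finset.filter_congr
    intro b hb
    rw [h (av ω b) (by simp only [coe_image, Set.mem_image]; exact ⟨b, hb, rfl⟩)]
  simp only [this]

open Classical in
/-- the set of the restrictions for which the degree is larger than `d` -/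
noncomputable def Bad (D : Finset (Finset ((E × Fin r × Fin m) × Bool))) (d : ℕ) :
    Finset (E × Fin r → Fin m × (Fin m → Bool)) :=
  univ.filter (fun ω => (fun y => ind K D (merge (rho ω) y)) ∉
    J (ι := E × Fin r × Fin m) (α := Bool) K d)

lemma bad_empty_of_const {D : Finset (Finset ((E × Fin r × Fin m) × Bool))} {d : ℕ}
    (h : (∀ x, dval D x) ∨ (∀ x, ¬ dval D x)) : Bad K D d = ∅ := by
  classical
  unfold Bad
  rw [Finset.filter_eq_empty_iff]
  intro ω _ hcon
  apply hcon
  rcases h with h | h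
  · have : (fun y => ind K D (merge (rho ω) y)) = fun _ => (1 : K) := by
      funext y; simp [ind, h]
    rw [this]
    exact J_const 1 d
  · have : (fun y => ind K D (merge (rho ω) y)) = fun _ => (0 : K) := by
      funext y; simp [ind, h]
    rw [this]
    exact J_const 0 d

/-- a maximal family of terms on disjoint sets of blocks -/
lemma exists_max (D : Finset (Finset ((E × Fin r × Fin m) × Bool))) (h0 : ∅ ∉ D) :
    ∃ 𝓕 ⊆ D, (∀ τ ∈ 𝓕, ∀ τ' ∈ 𝓕, τ ≠ τ' → Disjoint (bs τ) (bs τ')) ∧
      ∀ τ ∈ D, ∃ l ∈ τ, bl l.1 ∈ 𝓕.biUnion bs := by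
  classical
  let 𝒬 := D.powerset.filter (fun 𝓕 => ∀ τ ∈ 𝓕, ∀ τ' ∈ 𝓕, τ ≠ τ' → Disjoint (bs τ) (bs τ'))
  have hne : 𝒬.Nonempty := ⟨∅, by simp [𝒬]⟩
  obtain ⟨𝓕, h𝓕, hmax⟩ := Finset.exists_max_image 𝒬 card hne
  rw [mem_filter, mem_powerset] at h𝓕
  refine ⟨𝓕, h𝓕.1, h𝓕.2, ?_⟩
  intro τ hτ
  by_contra hcon
  push Not at hcon
  obtain ⟨l₀, hl₀⟩ : τ.Nonempty := by
    rw [nonempty_iff_ne_empty]
    rintro rfl
    exact h0 hτ
  have hτ𝓕 : τ ∉ 𝓕 := by
    intro h
    exact hcon l₀ hl₀ (mem_biUnion.mpr ⟨τ, h, mem_image_of_mem _ hl₀⟩)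
  have hd : ∀ τ' ∈ 𝓕, Disjoint (bs τ) (bs τ') := by
    intro τ' hτ'
    rw [Finset.disjoint_left]
    intro b hb hb'
    obtain ⟨l, hl, rfl⟩ := mem_image.mp hb
    exact hcon l hl (mem_biUnion.mpr ⟨τ', hτ', hb'⟩)
  have hins : insert τ 𝓕 ∈ 𝒬 := by
    rw [mem_filter, mem_powerset]
    refine ⟨insert_subset hτ h𝓕.1, ?_⟩
    intro a ha a' ha' hne
    rw [mem_insert] at ha ha'
    rcases ha with rfl | ha <;> rcases ha' with rfl | ha'
    · exact absurd rfl hne
    · exact hd a' ha'
    · exact (hd a ha).symm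
    · exact h𝓕.2 a ha a' ha' hne
  have := hmax _ hins
  rw [card_insert_of_notMem hτ𝓕] at this
  omega

theorem switch (κ : ℕ) : 2 * κ ≤ m → ∀ (w : ℕ)
    (D : Finset (Finset ((E × Fin r × Fin m) × Bool))), (∀ τ ∈ D, τ.card ≤ κ) →
    2 ^ w * (Bad K D (aa κ * w)).card ≤
      Fintype.card (E × Fin r → Fin m × (Fin m → Bool)) := by
  classical
  induction κ with
  | zero =>
    intro _ w D hD
    have : Bad K D (aa 0 * w) = ∅ := by
      apply bad_empty_of_const
      by_cases h : ∅ ∈ D
      · left
        intro x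
        exact ⟨∅, h, by simp⟩
      · right
        rintro x ⟨τ, hτ, _⟩
        have h1 := hD τ hτ
        rw [Nat.le_zero, card_eq_zero] at h1
        exact h (h1 ▸ hτ)
    rw [this]
    simp
  | succ κ ih =>
    intro hm w D₀ hD₀
    by_cases h0 : ∅ ∈ D₀
    · rw [bad_empty_of_const K (Or.inl (fun x => ⟨∅, h0, by simp⟩))]
      simp
    -- consistent terms
    set D := D₀.filter Cons with hDdef
    have hDD : ∀ x, dval D₀ x ↔ dval D x := by
      intro x
      constructor
      · rintro ⟨τ, hτ, h⟩
        refine ⟨τ, mem_filter.mpr ⟨hτ, ?_⟩, h⟩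
        intro l hl l' hl' he
        exact Prod.ext he (by rw [← h l hl, ← h l' hl', he])
      · rintro ⟨τ, hτ, h⟩
        exact ⟨τ, (mem_filter.mp hτ).1, h⟩
    have hbadD : Bad K D₀ (aa (κ + 1) * w) = Bad K D (aa (κ + 1) * w) := by
      have h1 : ind K D₀ = ind K D := by
        funext x
        unfold ind
        exact if_congr (hDD x) rfl rfl
      unfold Bad
      rw [h1]
    rw [hbadD]
    have hD : ∀ τ ∈ D, τ.card ≤ κ + 1 := fun τ hτ => hD₀ τ (mem_filter.mp hτ).1
    have hD0 : ∅ ∉ D := fun h => h0 (mem_filter.mp h).1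
    have hDc : ∀ τ ∈ D, Cons τ := fun τ hτ => (mem_filter.mp hτ).2
    obtain ⟨𝓕, h𝓕D, h𝓕disj, h𝓕max⟩ := exists_max D hD0
    set X := Fintype.card (E × Fin r → Fin m × (Fin m → Bool)) with hX
    set n0 : ℕ := 4 ^ (κ + 1) with hn0
    have hn01 : 1 ≤ n0 := Nat.one_le_pow _ _ (by norm_num)
    rcases Nat.lt_or_ge 𝓕.card (n0 * w) with hcase | hcase
    · -- few disjoint terms
      set S := 𝓕.biUnion bs with hS
      set s := (κ + 1) * n0 * w with hs
      have hScard : S.card ≤ s := by
        calc S.card ≤ ∑ τ ∈ 𝓕, (bs τ).card := card_biUnion_le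
          _ ≤ ∑ _τ ∈ 𝓕, (κ + 1) := Finset.sum_le_sum (fun τ hτ =>
              (card_image_le).trans (hD τ (h𝓕D hτ)))
          _ = 𝓕.card * (κ + 1) := by rw [sum_const, smul_eq_mul]
          _ ≤ (n0 * w) * (κ + 1) := Nat.mul_le_mul_right _ hcase.le
          _ = s := by rw [hs]; ring
      set w' := s + w with hw'
      have hdegeq : aa (κ + 1) * w = s + aa κ * w' := by
        simp only [aa]
        rw [hw', hs, hn0]
        ring
      have hR : ∀ U : Finset (E × Fin r),
          2 ^ w' * (univ.filter (fun ω : E × Fin r → Fin m × (Fin m → Bool) =>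
            (fun y => ind K (red D S ω U) (merge (rho ω) y)) ∉
              J (ι := E × Fin r × Fin m) (α := Bool) K (aa κ * w'))).card ≤ X := by
        intro U
        have hmix := mixcount S (fun α β : E × Fin r → Fin m × (Fin m → Bool) =>
            (fun y => ind K (red D S α U) (merge (rho β) y)) ∉
              J (ι := E × Fin r × Fin m) (α := Bool) K (aa κ * w')) (by
          intro α α' β β' h1 h2
          rw [red_congr D S h1 U, ind_congr_off K (red_blocks) h2])
        rw [← hX] at hmix
        have hle : 2 ^ w' * ∑ α : E × Fin r → Fin m × (Fin m → Bool),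
            (univ.filter (fun β : E × Fin r → Fin m × (Fin m → Bool) =>
            (fun y => ind K (red D S α U) (merge (rho β) y)) ∉
              J (ι := E × Fin r × Fin m) (α := Bool) K (aa κ * w'))).card ≤ X * X := by
          rw [Finset.mul_sum]
          calc _ ≤ ∑ _α : E × Fin r → Fin m × (Fin m → Bool), X :=
                Finset.sum_le_sum (fun α _ => by
                  have := ih (by omega) w' (red D S α U) (red_card hD h𝓕max)
                  unfold Bad at this
                  convert this)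
            _ = X * X := by rw [sum_const, card_univ, smul_eq_mul]
        rcases Nat.eq_zero_or_pos X with h0 | h0
        · have h1 : (univ.filter (fun ω : E × Fin r → Fin m × (Fin m → Bool) =>
            (fun y => ind K (red D S ω U) (merge (rho ω) y)) ∉
              J (ι := E × Fin r × Fin m) (α := Bool) K (aa κ * w'))).card ≤ X := by
            rw [hX, ← card_univ]
            exact card_le_card (filter_subset _ _)
          have h2 : (univ.filter (fun ω : E × Fin r → Fin m × (Fin m → Bool) =>
            (fun y => ind K (red D S ω U) (merge (rho ω) y)) ∉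
              J (ι := E × Fin r × Fin m) (α := Bool) K (aa κ * w'))).card = 0 := by omega
          rw [h2]
          simp
        · refine Nat.le_of_mul_le_mul_right ?_ h0
          rw [mul_assoc, hmix]
          exact hle
      have hsub : Bad K D (aa (κ + 1) * w) ⊆ S.powerset.biUnion (fun U =>
          univ.filter (fun ω : E × Fin r → Fin m × (Fin m → Bool) =>
            (fun y => ind K (red D S ω U) (merge (rho ω) y)) ∉
              J (ι := E × Fin r × Fin m) (α := Bool) K (aa κ * w'))) := by
        intro ω hω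
        unfold Bad at hω
        rw [mem_filter] at hω
        by_contra hcon
        apply hω.2
        rw [hdegeq, ind_expand K D S ω]
        refine Submodule.sum_mem _ (fun U hU => ?_)
        refine J_mul (J_mono hScard (sel_mem K S ω U)) ?_
        by_contra h
        exact hcon (mem_biUnion.mpr ⟨U, hU, mem_filter.mpr ⟨mem_univ _, h⟩⟩)
      have hcard : 2 ^ w' * (Bad K D (aa (κ + 1) * w)).card ≤ 2 ^ s * X := by
        calc 2 ^ w' * (Bad K D (aa (κ + 1) * w)).card
            ≤ 2 ^ w' * ∑ U ∈ S.powerset, (univ.filter (fun ω : E × Fin r → Fin m × (Fin m → Bool) =>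
              (fun y => ind K (red D S ω U) (merge (rho ω) y)) ∉
              J (ι := E × Fin r × Fin m) (α := Bool) K (aa κ * w'))).card :=
              Nat.mul_le_mul_left _ ((card_le_card hsub).trans card_biUnion_le)
          _ ≤ ∑ _U ∈ S.powerset, X := by
              rw [Finset.mul_sum]
              exact Finset.sum_le_sum (fun U _ => hR U)
          _ = 2 ^ S.card * X := by rw [sum_const, card_powerset, smul_eq_mul]
          _ ≤ 2 ^ s * X := Nat.mul_le_mul_right _ (Nat.pow_le_pow_right (by norm_num) hScard)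
      have h2s : 0 < 2 ^ s := by positivity
      refine Nat.le_of_mul_le_mul_left ?_ h2s
      calc 2 ^ s * (2 ^ w * (Bad K D (aa (κ + 1) * w)).card)
          = 2 ^ w' * (Bad K D (aa (κ + 1) * w)).card := by rw [hw', pow_add]; ring
        _ ≤ _ := hcard
    · -- many disjoint terms
      have hfam := fam_count n0 hn01 bs (fun τ ω => Dead (r := r) (m := m) ω τ)
        (fun τ α α' h => dead_congr h) 𝓕 h𝓕disj
        (fun τ hτ => dead_card τ (hDc τ (h𝓕D hτ)) (hD τ (h𝓕D hτ)) hm)
      rw [← hX] at hfam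
      have hsub : Bad K D (aa (κ + 1) * w) ⊆
          univ.filter (fun ω : E × Fin r → Fin m × (Fin m → Bool) => ∀ τ ∈ 𝓕, ¬ Dead ω τ) := by
        intro ω hω
        unfold Bad at hω
        rw [mem_filter] at hω ⊢
        refine ⟨mem_univ _, fun τ hτ hdead => hω.2 ?_⟩
        have : (fun y => ind K D (merge (rho ω) y)) = fun _ => (1 : K) := by
          funext y
          have : dval D (merge (rho ω) y) := by
            refine ⟨τ, h𝓕D hτ, fun l hl => ?_⟩
            rw [merge_dead ω y l.1 (hdead l hl).1]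
            exact (hdead l hl).2
          simp [ind, this]
        rw [this]
        exact J_const 1 _
      have h1 := pred_pow_half n0 w 𝓕.card hn01 hcase
      have hpos : 0 < n0 ^ 𝓕.card := by positivity
      refine Nat.le_of_mul_le_mul_left ?_ hpos
      calc n0 ^ 𝓕.card * (2 ^ w * (Bad K D (aa (κ + 1) * w)).card)
          ≤ n0 ^ 𝓕.card * (2 ^ w * (univ.filter (fun ω : E × Fin r → Fin m × (Fin m → Bool) =>
            ∀ τ ∈ 𝓕, ¬ Dead ω τ)).card) :=
            Nat.mul_le_mul_left _ (Nat.mul_le_mul_left _ (card_le_card hsub))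
        _ = 2 ^ w * (n0 ^ 𝓕.card * (univ.filter (fun ω : E × Fin r → Fin m × (Fin m → Bool) =>
            ∀ τ ∈ 𝓕, ¬ Dead ω τ)).card) := by ring
        _ ≤ 2 ^ w * ((n0 - 1) ^ 𝓕.card * X) := Nat.mul_le_mul_left _ hfam
        _ = (2 ^ w * (n0 - 1) ^ 𝓕.card) * X := by ring
        _ ≤ n0 ^ 𝓕.card * X := Nat.mul_le_mul_right _ h1

/-- one restriction for all members of a small family -/
theorem exists_rho {κ : ℕ} (hm : 2 * κ ≤ m) (hm0 : 0 < m) (w : ℕ)
    (𝓓 : Finset (Finset (Finset ((E × Fin r × Fin m) × Bool))))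
    (hD : ∀ D ∈ 𝓓, ∀ τ ∈ D, τ.card ≤ κ) (hw : 𝓓.card < 2 ^ w) :
    ∃ ω : E × Fin r → Fin m × (Fin m → Bool), ∀ D ∈ 𝓓,
      (fun y => ind K D (merge (rho ω) y)) ∈ J K (aa κ * w) := by
  classical
  by_contra hcon
  push Not at hcon
  have h1 : (univ : Finset (E × Fin r → Fin m × (Fin m → Bool))) ⊆
      𝓓.biUnion (fun D => Bad K D (aa κ * w)) := by
    intro ω _
    obtain ⟨D, hD', h⟩ := hcon ω
    refine mem_biUnion.mpr ⟨D, hD', ?_⟩
    unfold Bad
    rw [mem_filter]
    exact ⟨mem_univ _, h⟩
  have : Nonempty (Fin m) := ⟨⟨0, hm0⟩⟩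
  have hpos : 0 < Fintype.card (E × Fin r → Fin m × (Fin m → Bool)) := Fintype.card_pos
  have h2 : 2 ^ w * Fintype.card (E × Fin r → Fin m × (Fin m → Bool)) ≤
      𝓓.card * Fintype.card (E × Fin r → Fin m × (Fin m → Bool)) := by
    calc 2 ^ w * Fintype.card (E × Fin r → Fin m × (Fin m → Bool))
        ≤ 2 ^ w * ∑ D ∈ 𝓓, (Bad K D (aa κ * w)).card := by
          apply Nat.mul_le_mul_left
          rw [← card_univ]
          exact (card_le_card h1).trans card_biUnion_le
      _ = ∑ D ∈ 𝓓, 2 ^ w * (Bad K D (aa κ * w)).card := Finset.mul_sum _ _ _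
      _ ≤ ∑ _D ∈ 𝓓, Fintype.card (E × Fin r → Fin m × (Fin m → Bool)) :=
          Finset.sum_le_sum (fun D hD' => switch K κ hm w D (hD D hD'))
      _ = _ := by rw [sum_const, smul_eq_mul]
  have h3 := Nat.le_of_mul_le_mul_right h2 hpos
  omega

end

end Pool.Agent.V8H39.Sem
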